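import Pool.Agent.P8H63.RS.Stm2

set_option autoImplicit false
set_option linter.unusedSectionVars false

/-! # Project RS (helper63), package EQB -/

namespace Pool.Agent.P8H69.RS

open Module
open Pool.Agent.W332.OK (NN mem_NN NN_anti NN_sup)
open Pool.Agent.P8H63.RS

theorem eqb : S_EQB := by
  intro κ E _ _ _ n β V hH hβV t z e hz he hrel N hNU
  classical
  set U := Submodule.span κ (Set.range e) with hU
  obtain ⟨C₀, hC₀⟩ := exists_isCompl N
  obtain ⟨C, hCdef⟩ : ∃ C, C = C₀ ⊓ U := ⟨_, rfl⟩
  have hsup : N ⊔ C = U := by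
    rw [hCdef, ← sup_inf_assoc_of_le C₀ hNU, hC₀.sup_eq_top, top_inf_eq]
  have hinf : N ⊓ C = ⊥ := by
    rw [hCdef, ← inf_assoc, hC₀.inf_eq_bot, bot_inf_eq]
  have hCU : C ≤ U := by
    rw [hCdef]
    exact inf_le_right
  have hUt : finrank κ U = t := by
    rw [hU, finrank_span_eq_card he, Fintype.card_fin]
  have hdim := Submodule.finrank_sup_add_finrank_inf_eq N C
  rw [hsup, hinf, finrank_bot, hUt, add_zero] at hdim
  have hm : t - finrank κ N = finrank κ C := by omega
  rw [hm]
  let b := finBasis κ C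
  have hdec : ∀ k, ∃ p ∈ N, ∃ q ∈ C, p + q = e k := by
    intro k
    have h1 : e k ∈ N ⊔ C := by
      rw [hsup]
      exact Submodule.subset_span ⟨k, rfl⟩
    obtain ⟨p, hp, q, hq, h⟩ := Submodule.mem_sup.1 h1
    exact ⟨p, hp, q, hq, h⟩
  choose p hp q hq hpq using hdec
  obtain ⟨c, hc⟩ : ∃ c : Fin t → Fin (finrank κ C) → κ, ∀ k l, c k l = b.repr ⟨q k, hq k⟩ l :=
    ⟨fun k l => b.repr ⟨q k, hq k⟩ l, fun _ _ => rfl⟩
  obtain ⟨z', hz'⟩ : ∃ z' : Fin (finrank κ C) → E, ∀ l, z' l = ∑ k, c k l • z k :=
    ⟨fun l => ∑ k, c k l • z k, fun _ => rfl⟩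
  -- the independence of `z'`
  have hind : LinearIndependent κ z' := by
    rw [Fintype.linearIndependent_iff]
    intro g hg
    have h1 : ∑ k, (∑ l, g l * c k l) • z k = 0 := by
      rw [← hg]
      simp only [hz', Finset.smul_sum, Finset.sum_smul, smul_smul]
      exact Finset.sum_comm
    have h2 := Fintype.linearIndependent_iff.1 hz _ h1
    let φ : C →ₗ[κ] κ := ∑ l, g l • b.coord l
    have hφ : ∀ x, φ x = ∑ l, g l * b.repr x l := by
      intro x
      simp only [φ, LinearMap.sum_apply, LinearMap.smul_apply, Basis.coord_apply, smul_eq_mul]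
    have h3 : ∀ k, φ ⟨q k, hq k⟩ = 0 := by
      intro k
      rw [hφ, ← h2 k]
      exact Finset.sum_congr rfl fun l _ => by rw [hc]
    have h4 : ∀ x : C, φ x = 0 := by
      intro x
      have hx : (x : Fin n → κ) ∈ Submodule.span κ (Set.range e) := hCU x.2
      obtain ⟨a, ha⟩ := (Submodule.mem_span_range_iff_exists_fun κ).1 hx
      have h5 : (x : Fin n → κ) - ∑ k, a k • q k = ∑ k, a k • p k := by
        rw [← ha, ← Finset.sum_sub_distrib]
        refine Finset.sum_congr rfl fun k _ => ?_
        rw [← hpq k, smul_add, add_sub_cancel_right]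
      have h6 : (x : Fin n → κ) - ∑ k, a k • q k ∈ N ⊓ C := by
        refine ⟨?_, ?_⟩
        · rw [h5]
          exact Submodule.sum_mem _ fun k _ => N.smul_mem _ (hp k)
        · exact C.sub_mem x.2 (Submodule.sum_mem _ fun k _ => C.smul_mem _ (hq k))
      rw [hinf, Submodule.mem_bot, sub_eq_zero] at h6
      have h7 : x = ∑ k, a k • (⟨q k, hq k⟩ : C) := by
        apply Subtype.ext
        rw [h6]
        simp only [Submodule.coe_sum, Submodule.coe_smul]
      rw [h7, map_sum]
      refine Finset.sum_eq_zero fun k _ => ?_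
      rw [map_smul, h3, smul_zero]
    intro l
    have h5 := h4 (b l)
    rw [hφ] at h5
    simpa [Basis.repr_self, Finsupp.single_apply] using h5
  -- the relation
  have hrel' : ∀ w ∈ NN β N, ∑ l, z' l * β w (b l : Fin n → κ) = 0 := by
    intro w hw
    rw [← hrel w]
    have h1 : ∀ k, β w (e k) = ∑ l, c k l • β w (b l : Fin n → κ) := by
      intro k
      have h2 : q k = ∑ l, c k l • (b l : Fin n → κ) := by
        have h3 := congrArg (fun x : C => (x : Fin n → κ)) (b.sum_repr ⟨q k, hq k⟩)
        simp only [Submodule.coe_sum, Submodule.coe_smul] at h3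
        rw [← h3]
        exact Finset.sum_congr rfl fun l _ => by rw [hc]
      rw [← hpq k, map_add, (mem_NN β).1 hw _ (hp k), zero_add]
      conv_lhs => rw [h2]
      rw [map_sum]
      exact Finset.sum_congr rfl fun l _ => by rw [map_smul]
    simp only [h1, hz', Finset.sum_mul, Finset.mul_sum]
    rw [Finset.sum_comm]
    refine Finset.sum_congr rfl fun k _ => Finset.sum_congr rfl fun l _ => ?_
    rw [smul_mul_assoc, mul_smul_comm]
  -- the map
  let T : NN β N →ₗ[κ] (Fin (finrank κ C) → E) :=
    LinearMap.pi (fun l => (β.flip (b l : Fin n → κ)).comp (NN β N).subtype)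
  have hT : ∀ (w : NN β N) l, T w l = β (w : Fin n → κ) (b l : Fin n → κ) := fun w l => rfl
  have hker : finrank κ (LinearMap.ker T) ≤ finrank κ (NN β U) := by
    rw [← Submodule.finrank_map_subtype_eq (NN β N) (LinearMap.ker T)]
    apply Submodule.finrank_mono
    rintro w ⟨w', hw', rfl⟩
    have h1 : ∀ l, β (w' : Fin n → κ) (b l : Fin n → κ) = 0 := fun l => by
      rw [← hT]
      exact congrFun (LinearMap.mem_ker.1 hw') l
    change (w' : Fin n → κ) ∈ NN β U
    rw [← hsup, NN_sup]
    refine ⟨w'.2, ?_⟩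
    rw [SetLike.mem_coe, mem_NN]
    intro x hx
    have h3 := congrArg (fun x : C => (x : Fin n → κ)) (b.sum_repr ⟨x, hx⟩)
    simp only [Submodule.coe_sum, Submodule.coe_smul] at h3
    rw [← h3, map_sum]
    refine Finset.sum_eq_zero fun l _ => ?_
    rw [map_smul, h1, smul_zero]
  have hr : finrank κ (LinearMap.range T) ≤ finrank κ C * (finrank κ C - 1) := by
    let bT := finBasis κ (LinearMap.range T)
    have hcol : ∀ j, ∃ w, T w = (bT j : Fin (finrank κ C) → E) := fun j => (bT j).2
    choose w hw using hcol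
    refine hH (finrank κ C) _ z' (fun i j => (bT j : Fin (finrank κ C) → E) i) hind (by
      intro i j
      rw [← hw, hT]
      exact hβV _ _) (by
      intro j
      rw [← hrel' (w j) (w j).2]
      refine Finset.sum_congr rfl fun l _ => ?_
      rw [← hw, hT]) (by
      have h1 := bT.linearIndependent
      exact h1.map' (LinearMap.range T).subtype (Submodule.ker_subtype _))
  have hrn := LinearMap.finrank_range_add_finrank_ker T
  omega

end Pool.Agent.P8H69.RS
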